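import Pool.Agent.Helper49.MD.Kd

/-! THE MINIMAL SPEED IS ATTAINED (abstract): classes `P W` of objects with the speed `W`, closed under limits of speeds. -/

set_option autoImplicit false

namespace Pool.Agent.Helper52.MW

open Filter Topology Pool.Agent.Helper31.EC Pool.Agent.Helper49.MD

noncomputable section

variable {K : FK}

/-- the minimal speed is attained; `U` is an upper bound of the speeds for which the classes are closed -/
theorem exists_min {P : ℝ → K.Pd} {W1 U L : ℝ} (h1 : ∃ (S : Sp) (x : K.Ob S), P W1 S x) (hU : W1 ≤ U)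
    (hL : ∀ W (S : Sp) (x : K.Ob S), P W S x → L ≤ W)
    (hlim : ∀ (W : ℕ → ℝ) (W0 : ℝ), (∀ j, W j ≤ U) → Tendsto W atTop (𝓝 W0) → DiagTo (fun j => P (W j)) (P W0)) :
    ∃ W0 : ℝ, W0 ≤ U ∧ (∃ (S : Sp) (x : K.Ob S), P W0 S x) ∧ ∀ W (S : Sp) (x : K.Ob S), P W S x → W0 ≤ W := by
  classical
  set V : Set ℝ := {W | W ≤ U ∧ ∃ (S : Sp) (x : K.Ob S), P W S x} with hV
  have hne : V.Nonempty := ⟨W1, hU, h1⟩
  have hb : BddBelow V := ⟨L, fun W hW => by
    obtain ⟨S, x, hx⟩ := hW.2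
    exact hL W S x hx⟩
  have h2 : ∀ j : ℕ, ∃ W ∈ V, W < sInf V + 1 / ((j : ℝ) + 1) := fun j =>
    exists_lt_of_csInf_lt hne (by
      have : (0 : ℝ) < 1 / ((j : ℝ) + 1) := by positivity
      linarith)
  choose W hW hlt using h2
  have hge : ∀ j, sInf V ≤ W j := fun j => csInf_le hb (hW j)
  have ht : Tendsto W atTop (𝓝 (sInf V)) := by
    have t1 := (tendsto_one_div_add_atTop_nhds_zero_nat (𝕜 := ℝ)).const_add (sInf V)
    rw [add_zero] at t1
    exact tendsto_of_tendsto_of_tendsto_of_le_of_le tendsto_const_nhds t1 hge fun j => (hlt j).le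
  choose S x hx using fun j => (hW j).2
  obtain ⟨E, hE, h3⟩ := hlim W (sInf V) (fun j => (hW j).1) ht S x hx
  obtain ⟨J, hJ⟩ := exists_slo S E hE
  have h4 : sInf V ≤ U := le_of_tendsto' ht fun j => (hW j).1
  refine ⟨sInf V, h4, ⟨_, _, h3 J hJ⟩, fun W' S' x' hx' => ?_⟩
  rcases le_total W' U with h | h
  · exact csInf_le hb ⟨h, S', x', hx'⟩
  · exact h4.trans h

end

end Pool.Agent.Helper52.MW
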