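import Pool.Agent.Helper52.MW.Ime
import Pool.Agent.Helper52.MW.Min
import Pool.Agent.Helper29.MX.Bas
import Pool.Agent.Helper63.SCN.Dg
import Pool.Agent.Helper52.GF.Prk

/-! THE CLASS K OF PAIRS (sect. 6, 7 of ns_max_v4.3): pre-members, LIP, linear members; closures under events of
extensions; the minimal speed. -/

set_option autoImplicit false

namespace Pool.Agent.Helper52.MW

open Finset Filter Topology Matrix Pool.Agent.Helper69.RK Pool.Agent.Helper31.EC Pool.Agent.Helper31.EC.Sp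
open Pool.Agent.Helper40.EL Pool.Agent.Helper84.MT Pool.Agent.Helper89.LX Pool.Agent.Helper36.AM
open Pool.Agent.Helper29.MX
open Pool.Agent.Helper49.MD (DiagTo DiagCl ImCl Cls Giv FMs)
open Pool.Agent.Helper47.FN (KR lftR obR)
open Pool.Agent.Helper87.NSL (cndR KnS)
open Pool.Agent.Helper77.TPX (TopE TopQ)

noncomputable section

variable {S T : Sp} {M : ℕ} {E : ℕ → ℕ} {ι : Type}

/-! ### classes of pairs as classes of objects -/

theorem lftR_inv (C : ∀ S : Sp, MSys S M E ι → (∀ k, Setoid (S.F k).Ω) → Prop) :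
    Pool.Agent.Helper49.MD.Inv (lftR C) := by
  rintro S x y e ⟨s, R, h1, h2, h3⟩
  refine ⟨s, R, ⟨?_, fun i => ?_⟩, ?_, h3⟩
  · filter_upwards [h1.1, e] with k a b
    rw [← b]
    exact a
  · filter_upwards [h1.2 i, e] with k a b
    rw [← b]
    exact a
  · filter_upwards [h2, e] with k a b
    rw [← b]
    exact a

theorem lftR_im {C : ∀ S : Sp, MSys S M E ι → (∀ k, Setoid (S.F k).Ω) → Prop}
    (h : ∀ S s R, C S s R → ∀ (T : Sp) (p : Pj T S) (A : ∀ k, (T.F k).Ω → Prop) (hA : 0 < ul (T.pr A)),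
      C (Sp.im p A) (s.im p A hA) R) : ImCl (lftR C) := by
  rintro S x ⟨s, R, h1, h2, h3⟩ T p A hA
  refine ⟨s.im p A hA, R, ⟨?_, fun i => ?_⟩, h2, h S s R h3 T p A hA⟩
  · filter_upwards [h1.1] with k hk
    exact hk
  · filter_upwards [h1.2 i] with k hk
    exact hk

/-! ### the clauses on events of extensions -/

theorem im_supp (p : Pj T S) (A : ∀ k, (T.F k).Ω → Prop) {k : ℕ} {ω : (S.F k).Ω}
    (h : ((Sp.im p A).F k).μ ω ≠ 0) : (S.F k).μ ω ≠ 0 := by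
  by_contra h0
  refine h ?_
  have h1 : push (p.π k) ((T.rest A).F k).μ ω = 0 := by
    unfold push
    refine Finset.sum_eq_zero fun x _ => ?_
    split_ifs with h2
    · by_contra h3
      have h4 : (T.F k).μ x ≠ 0 := ((T.F k).rest_supp (A k) x h3).1
      have h5 := p.supp k x h4
      rw [h2] at h5
      exact h5 h0
    · rfl
  exact h1

theorem Pt_im {s : MSys S M E ι} {R : Rsl S} (h : Pt s R) (p : Pj T S) (A : ∀ k, (T.F k).Ω → Prop)
    (hA : 0 < ul (T.pr A)) : Pt (s.im p A hA) R := by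
  unfold Pt KnS at h ⊢
  filter_upwards [h] with k hk ω ω' h1 h2 h3 h4
  exact hk ω ω' (im_supp p A h1) (im_supp p A h2) h3 h4

theorem Ud_im {v : ℕ} {s : MSys S M E ι} {j : ι} (h : Ud v s j) (p : Pj T S) (A : ∀ k, (T.F k).Ω → Prop)
    (hA : 0 < ul (T.pr A)) : Ud v (s.im p A hA) j := by
  have h1 : AllE (fun (S : Sp) (t : MSys S M E ι) _ => ∀ c c' : ℝ, 0 ≤ c → c ≤ c' → c' ≤ 1 →
      (v : ℝ) * (c' - c) ≤ ul (fun k => Pool.Agent.Helper31.EC.h (fc (Setoid.ker (t.Q.cellv c' k)))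
        ((t.lf j).win c k) / (S.F k).n))
      S s (rbot S) := fun T p A hA c c' => h T p A hA c c'
  have h2 := AllE_im h1 p A hA
  exact fun T' p' A' hA' c c' => h2 T' p' A' hA' c c'

theorem Inv_im {v : ℕ} {s : MSys S M E ι} (h : Inv v s) (p : Pj T S) (A : ∀ k, (T.F k).Ω → Prop)
    (hA : 0 < ul (T.pr A)) : Inv v (s.im p A hA) := ⟨h.1, fun i => Ud_im (h.2 i) p A hA⟩

theorem Stb_im {ε : ℝ} {s : MSys S M E ι} {R : Rsl S} (h : Stb ε s R) (p : Pj T S) (A : ∀ k, (T.F k).Ω → Prop)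
    (hA : 0 < ul (T.pr A)) : Stb ε (s.im p A hA) R := AllE_im h p A hA

/-! ### the class K -/

section K

variable {N : ℕ}

/-- PRE-MEMBERS of the class K: everything except LIP -/
structure PreK (C : ℕ → MCl N) (m v e0 : ℕ) (z : Fin N) (ρ l : ℝ) (S : Sp) (g r : ℕ)
    (s : MSys S N (lin g) (Fin r)) (R : Rsl S) : Prop where
  c : C m S g r s
  pt : Pt s R
  inv : Inv v s
  stb : Stb 0 s R
  top : TopE s.Q z ρ l
  dim : ∀ i, (s.lf i).e ≤ e0

/-- LIP: the speed is at most `La` on the windows `c < l` -/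
def LipK (La l : ℝ) (S : Sp) (s : MSys S M E ι) (R : Rsl S) : Prop := AllE (fun _ t R' => ∀ c c' : ℝ, 0 ≤ c → c ≤ c' →
  c' < l → volKO t R' c - volKO t R' c' ≤ La * (c' - c)) S s R

/-- LINEAR MEMBERS: `u = W c` on the windows `c < l` -/
def LinK (W l : ℝ) (S : Sp) (s : MSys S M E ι) (R : Rsl S) : Prop := AllE (fun _ t R' => ∀ c : ℝ, 0 ≤ c → c < l →
  volKO t R' c = M - W * c) S s R

theorem LinK.lip {W La l : ℝ} {s : MSys S M E ι} {R : Rsl S} (h : LinK W l S s R) (hW : W ≤ La) : LipK La l S s R := by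
  intro T p A hA c c' h0 h1 h2
  have e1 := h T p A hA c h0 (h1.trans_lt h2)
  have e2 := h T p A hA c' (h0.trans h1) h2
  rw [e1, e2]
  nlinarith

variable {C : ℕ → MCl N} {m v e0 : ℕ} {z : Fin N} {ρ l : ℝ} {g r : ℕ}

theorem PreK.im {s : MSys S N (lin g) (Fin r)} {R : Rsl S} (hC : ∀ S g r s, C m S g r s →
    ∀ (T : Sp) (p : Pj T S) (A : ∀ k, (T.F k).Ω → Prop) (hA : 0 < ul (T.pr A)), C m (Sp.im p A) g r (s.im p A hA))
    (h : PreK C m v e0 z ρ l S g r s R) (p : Pj T S) (A : ∀ k, (T.F k).Ω → Prop) (hA : 0 < ul (T.pr A)) :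
    PreK C m v e0 z ρ l (Sp.im p A) g r (s.im p A hA) R where
  c := hC _ _ _ _ h.c T p A hA
  pt := Pt_im h.pt p A hA
  inv := Inv_im h.inv p A hA
  stb := Stb_im h.stb p A hA
  top := h.top.im p A hA
  dim := h.dim

/-- the resolution may be made coarser (as long as the point is resolved) if the pair stays stable -/
theorem LinK.im {W : ℝ} {s : MSys S M E ι} {R : Rsl S} (h : LinK W l S s R) (p : Pj T S)
    (A : ∀ k, (T.F k).Ω → Prop) (hA : 0 < ul (T.pr A)) : LinK W l (Sp.im p A) (s.im p A hA) R := AllE_im h p A hA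

theorem LipK.im {La : ℝ} {s : MSys S M E ι} {R : Rsl S} (h : LipK La l S s R) (p : Pj T S)
    (A : ∀ k, (T.F k).Ω → Prop) (hA : 0 < ul (T.pr A)) : LipK La l (Sp.im p A) (s.im p A hA) R := AllE_im h p A hA

/-- THE CLASS K -/
def KK (C : ℕ → MCl N) (m v e0 : ℕ) (z : Fin N) (ρ l La : ℝ) : KCl N := fun S g r s R =>
  PreK C m v e0 z ρ l S g r s R ∧ LipK La l S s R

/-- the pairs of the class K with the speed `W` -/
def LK (C : ℕ → MCl N) (m v e0 : ℕ) (z : Fin N) (ρ l W : ℝ) : KCl N := fun S g r s R =>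
  PreK C m v e0 z ρ l S g r s R ∧ LinK W l S s R

theorem LK.kk {La W : ℝ} (hW : W ≤ La) {s : MSys S N (lin g) (Fin r)} {R : Rsl S}
    (h : LK C m v e0 z ρ l W S g r s R) : KK C m v e0 z ρ l La S g r s R := ⟨h.1, h.2.lip hW⟩

theorem LK.nonneg (hl : 0 < l) {W : ℝ} {s : MSys S N (lin g) (Fin r)} {R : Rsl S}
    (h : LK C m v e0 z ρ l W S g r s R) : 0 ≤ W := by
  have h1 := AllE_self h.2 (l / 2) (by linarith) (by linarith)
  have h2 := volKO_le_M s R (l / 2)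
  rw [h1] at h2
  by_contra h3
  push Not at h3
  have h4 := mul_neg_of_neg_of_pos h3 (half_pos hl)
  linarith

/-- LIMITS OF LINEAR MEMBERS (input: row LIMX) -/
def LIMW (C : ℕ → MCl N) (m v e0 : ℕ) (z : Fin N) (ρ l La : ℝ) (g r : ℕ) : Prop := ∀ (W : ℕ → ℝ) (W0 : ℝ),
  (∀ j, W j ≤ La) → Tendsto W atTop (𝓝 W0) →
    DiagTo (fun j => lftR fun S (s : MSys S N (lin g) (Fin r)) R => LK C m v e0 z ρ l (W j) S g r s R)
      (lftR fun S (s : MSys S N (lin g) (Fin r)) R => LK C m v e0 z ρ l W0 S g r s R)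

/-- **THE MINIMAL SPEED IS ATTAINED, THE CLASS LL IS LEGAL** -/
theorem minw (hC : ∀ S g r s, C m S g r s →
    ∀ (T : Sp) (p : Pj T S) (A : ∀ k, (T.F k).Ω → Prop) (hA : 0 < ul (T.pr A)), C m (Sp.im p A) g r (s.im p A hA))
    {La : ℝ} (hl : 0 < l) (hX : LIMW C m v e0 z ρ l La g r) {W1 : ℝ} (hW1 : W1 ≤ La)
    (h1 : ∃ (S : Sp) (s : MSys S N (lin g) (Fin r)) (R : Rsl S), LK C m v e0 z ρ l W1 S g r s R) :
    ∃ W : ℝ, 0 ≤ W ∧ W ≤ La ∧
      Cls (lftR fun S (s : MSys S N (lin g) (Fin r)) R => LK C m v e0 z ρ l W S g r s R) ∧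
      ∀ (W' : ℝ) (S : Sp) (s : MSys S N (lin g) (Fin r)) (R : Rsl S), LK C m v e0 z ρ l W' S g r s R → W ≤ W' := by
  obtain ⟨S1, s1, R1, h1⟩ := h1
  obtain ⟨W, h2, ⟨S, x, h3⟩, h4⟩ := exists_min
    (P := fun W => lftR fun S (s : MSys S N (lin g) (Fin r)) R => LK C m v e0 z ρ l W S g r s R) (W1 := W1) (U := La)
    (L := 0) ⟨S1, obR s1 R1, Pool.Agent.Helper47.FN.lftR_ob h1⟩ hW1 (by
      rintro W' S' x' ⟨s', R', _, _, h5⟩
      exact h5.nonneg hl) hX
  have h0 : 0 ≤ W := by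
    obtain ⟨s, R, _, _, h5⟩ := h3
    exact h5.nonneg hl
  refine ⟨W, h0, h2, ⟨hX (fun _ => W) W (fun _ => h2) tendsto_const_nhds, lftR_im fun S s R h T p A hA =>
    ⟨h.1.im hC p A hA, h.2.im p A hA⟩, lftR_inv _, S, x, h3⟩, fun W' S' s' R' h' => ?_⟩
  exact h4 W' S' (obR s' R') (Pool.Agent.Helper47.FN.lftR_ob h')

end K

end

end Pool.Agent.Helper52.MW
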