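import Pool.Agent.Helper29.MX.St
import Pool.Agent.Helper81.CPY.Imim

/-! PROPERTIES OF PAIRS `(s, R)` ON ALL EVENTS OF ALL EXTENSIONS pass to events of extensions, and hold for the pair
itself (equalities of triples: space, system, resolution). -/

set_option autoImplicit false

namespace Pool.Agent.Helper52.MW

open Finset Filter Topology Matrix Pool.Agent.Helper69.RK Pool.Agent.Helper31.EC Pool.Agent.Helper31.EC.Sp
open Pool.Agent.Helper40.EL Pool.Agent.Helper84.MT Pool.Agent.Helper89.LX Pool.Agent.Helper81.CPY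
open Pool.Agent.Helper29.MX

noncomputable section

variable {S T T' : Sp} {M : ℕ} {E : ℕ → ℕ} {ι : Type}

/-- equality of triples (space, system, resolution) on the same carriers -/
theorem sig_mkR (Ω : ℕ → Type) (ft : ∀ k, Fintype (Ω k)) (μ μ' : ∀ k, Ω k → ℝ) (nn : ∀ k ω, 0 ≤ μ k ω)
    (nn' : ∀ k ω, 0 ≤ μ' k ω) (m1 : ∀ k, mass (μ k) = 1) (m1' : ∀ k, mass (μ' k) = 1) (Z : ∀ k, Setoid (Ω k))
    (n : ℕ → ℝ) (pos : ∀ k, 0 < n k) (lim : Tendsto n UF atTop) (hμ : μ = μ')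
    (s : MSys (spOf Ω ft μ nn m1 Z n pos lim) M E ι) (s' : MSys (spOf Ω ft μ' nn' m1' Z n pos lim) M E ι)
    (hQ : s.Q.v = s'.Q.v) (hl : ∀ i, (raw (s.lf i) : LRaw Ω M) = raw (s'.lf i)) (R : ∀ k, Setoid (Ω k)) :
    (⟨_, s, R⟩ : Σ S : Sp, MSys S M E ι × Rsl S) = ⟨_, s', R⟩ := by
  subst hμ
  obtain ⟨Q, lf⟩ := s
  obtain ⟨Q', lf'⟩ := s'
  have e1 : Q = Q' := VV_ext hQ
  subst e1
  have e2 : lf = lf' := funext fun i => raw_inj (hl i)
  subst e2
  rfl

/-- predicates of pairs do not see equalities of triples -/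
theorem sig_predR (P : ∀ S : Sp, MSys S M E ι → Rsl S → Prop) {s : MSys S M E ι} {R : Rsl S} {t : MSys T M E ι}
    {R' : Rsl T} (h : (⟨S, s, R⟩ : Σ S : Sp, MSys S M E ι × Rsl S) = ⟨T, t, R'⟩) : P S s R ↔ P T t R' := by
  cases h
  exact Iff.rfl

/-- AN EVENT OF AN EXTENSION OF AN EVENT OF AN EXTENSION, with the resolution -/
theorem im_imR (p : Pj T S) (A : ∀ k, (T.F k).Ω → Prop) (hA : 0 < ul (T.pr A)) (p' : Pj T' (Sp.im p A))
    (A' : ∀ k, (T'.F k).Ω → Prop) (hA' : 0 < ul (T'.pr A')) : ∃ (W : Sp) (q : Pj W S) (B : ∀ k, (W.F k).Ω → Prop)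
    (hB : 0 < ul (W.pr B)), ∀ (s : MSys S M E ι) (R : Rsl S),
    (⟨_, (s.im p A hA).im p' A' hA', R⟩ : Σ S : Sp, MSys S M E ι × Rsl S) = ⟨_, s.im q B hB, R⟩ := by
  set W : Sp := ⟨fun k => imW (p.fp k) (A k) (p'.fp k), S.lim⟩ with hW
  set q : Pj W S :=
    { π := fun k => (imP (p.fp k) (A k) (p'.fp k)).π
      law := fun k => (imP (p.fp k) (A k) (p'.fp k)).law
      hZ := fun k => (imP (p.fp k) (A k) (p'.fp k)).hZ
      hn := fun _ => rfl } with hq
  set B : ∀ k, (W.F k).Ω → Prop := fun k => imB (p.fp k) (A k) (p'.fp k) (A' k) with hB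
  have h1 : ∀ k, T.pr A k * T'.pr A' k ≤ W.pr B k := by
    intro k
    have h2 : W.pr B k = nz ((T.F k).pb (A k)) * nz ((T'.F k).pb (A' k)) := imB_pb (p.fp k) (A k) (p'.fp k) (A' k)
    rw [h2]
    have h3 : ∀ x : ℝ, 0 ≤ x → x ≤ nz x := by
      intro x hx
      unfold nz
      split_ifs with h4
      · rw [h4]
        exact zero_le_one
      · exact le_rfl
    exact mul_le_mul (h3 _ (pr_nonneg A k)) (h3 _ (pr_nonneg A' k)) (pr_nonneg A' k) (nz_pos (pr_nonneg A k)).le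
  have h2 : 0 < ul (W.pr B) := by
    have h3 : ul (fun k => T.pr A k * T'.pr A' k) = ul (T.pr A) * ul (T'.pr A') := ul_mul (UB_pr A) (UB_pr A')
    have h4 : UB fun k => T.pr A k * T'.pr A' k := (UB_pr A).mul (UB_pr A')
    have h5 := ul_mono h4 (UB_pr B) (Eventually.of_forall h1)
    rw [h3] at h5
    exact (mul_pos hA hA').trans_le h5
  refine ⟨W, q, B, h2, fun s R => ?_⟩
  exact sig_mkR (fun k => (S.F k).Ω) (fun k => (S.F k).ft) (fun k => ((Sp.im p' A').F k).μ)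
    (fun k => ((Sp.im q B).F k).μ) (fun k => ((Sp.im p' A').F k).nn) (fun k => ((Sp.im q B).F k).nn)
    (fun k => ((Sp.im p' A').F k).ms) (fun k => ((Sp.im q B).F k).ms) (fun k => (S.F k).Z)
    (fun k => (S.F k).n) (fun k => (S.F k).pos) S.lim
    (funext fun k => (imW_law (p.fp k) (A k) (p'.fp k) (A' k)).symm) _ _ rfl (fun _ => rfl) R

/-- PROPERTIES ON ALL EVENTS OF ALL EXTENSIONS PASS TO EVENTS OF EXTENSIONS -/
theorem AllE_im {P : ∀ S : Sp, MSys S M E ι → Rsl S → Prop} {s : MSys S M E ι} {R : Rsl S} (h : AllE P S s R)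
    (p : Pj T S) (A : ∀ k, (T.F k).Ω → Prop) (hA : 0 < ul (T.pr A)) : AllE P (Sp.im p A) (s.im p A hA) R := by
  intro T' p' A' hA'
  obtain ⟨W, q, B, hB, h1⟩ := im_imR (M := M) (E := E) (ι := ι) p A hA p' A' hA'
  exact (sig_predR P (h1 s R)).mpr (h W q B hB)

/-- the law of the trivial event of the trivial extension -/
theorem im_id_law (F : FSp) (p : FPj F F) (hp : p.π = id) : (FSp.im p fun _ => True).μ = F.μ := by
  have h0 : res F.μ (fun _ => True) = F.μ := funext fun ω => res_pos F.μ (fun _ => True) ω trivial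
  have h1 : F.pb (fun _ => True) = 1 := by
    unfold FSp.pb
    rw [h0]
    exact F.ms
  have h2 : F.restμ (fun _ => True) = F.μ := by
    rw [F.restμ_eq _ (by rw [h1]; exact one_ne_zero), h1]
    funext ω
    show (1 : ℝ)⁻¹ * res F.μ (fun _ => True) ω = F.μ ω
    rw [h0, inv_one, one_mul]
  show push p.π (F.restμ fun _ => True) = F.μ
  rw [h2, hp]
  exact push_id F.μ

/-- the pair itself is the pair on the trivial event -/
theorem im_idR (hG : 0 < ul (S.pr fun _ _ => True)) (s : MSys S M E ι) (R : Rsl S) :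
    (⟨_, s.im (Pj.id S) (fun _ _ => True) hG, R⟩ : Σ S : Sp, MSys S M E ι × Rsl S) = ⟨S, s, R⟩ :=
  sig_mkR (fun k => (S.F k).Ω) (fun k => (S.F k).ft) (fun k => ((Sp.im (Pj.id S) (fun _ _ => True)).F k).μ)
    (fun k => (S.F k).μ) (fun k => ((Sp.im (Pj.id S) (fun _ _ => True)).F k).nn) (fun k => (S.F k).nn)
    (fun k => ((Sp.im (Pj.id S) (fun _ _ => True)).F k).ms) (fun k => (S.F k).ms) (fun k => (S.F k).Z)
    (fun k => (S.F k).n) (fun k => (S.F k).pos) S.lim
    (funext fun k => im_id_law (S.F k) ((Pj.id S).fp k) rfl) _ s rfl (fun _ => rfl) R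

theorem pr_true_pos (S : Sp) : 0 < ul (S.pr fun _ _ => True) := by
  have e1 : ul (S.pr fun _ _ => True) = 1 := ul_eq ((Typ_iff _).mp Typ_true)
  rw [e1]
  exact one_pos

/-- the property holds for the pair itself -/
theorem AllE_self {P : ∀ S : Sp, MSys S M E ι → Rsl S → Prop} {s : MSys S M E ι} {R : Rsl S} (h : AllE P S s R) :
    P S s R := (sig_predR P (im_idR (pr_true_pos S) s R)).mp (h S (Pj.id S) _ (pr_true_pos S))

end

end Pool.Agent.Helper52.MW
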