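import Pool.Agent.Helper52.GF.Dir

/-! BOUNDS ON ALL EVENTS OF ALL EXTENSIONS are uniform (over all finite extensions and all events of a given
probability), so they are closed under slow diagonals. -/

set_option autoImplicit false

namespace Pool.Agent.Helper52.MW

open Finset Filter Topology Matrix Pool.Agent.Helper69.RK Pool.Agent.Helper31.EC Pool.Agent.Helper31.EC.Sp
open Pool.Agent.Helper40.EL Pool.Agent.Helper89.LX Pool.Agent.Helper59.EV Pool.Agent.Helper49.MD
open Pool.Agent.Helper52.GF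

noncomputable section

variable {K : FK} {B : K.Pd} {S : Sp}

/-- functions of the finite data which are bounded on all events -/
structure Bfn (K : FK) (B : K.Pd) where
  v : ∀ F : FSp, K.X F → ℝ
  M : ℝ
  bd : ∀ (S : Sp) (x : K.Ob S), B S x → ∀ᶠ k in UF, ∀ (T : FSp) (q : FPj T (S.F k)) (E : T.Ω → Prop),
    |v (FSp.im q E) (K.im q E (x k))| ≤ M

/-- the value of an object -/
def Bfn.f (V : Bfn K B) {S : Sp} (x : K.Ob S) : ℝ := ul (fun k => V.v (S.F k) (x k))

/-- the opposite function -/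
def Bfn.neg (V : Bfn K B) : Bfn K B where
  v := fun F x => - V.v F x
  M := V.M
  bd := fun S x hx => (V.bd S x hx).mono fun k hk T q E => by rw [abs_neg]; exact hk T q E

/-- direct values -/
def Bfn.ofD (V : Dv K B) : Bfn K B where
  v := V.v
  M := V.M
  bd := fun S x hx => (V.le S x hx).mono fun k hk T q E => by
    rw [abs_of_nonneg (V.nn _ _)]
    exact hk.2 T q E

theorem Bfn.UB_im (V : Bfn K B) {x : K.Ob S} (hx : B S x) {T : Sp} (p : Pj T S) (E : ∀ k, (T.F k).Ω → Prop) :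
    Pool.Agent.Helper31.EC.UB (fun k => V.v ((Sp.im p E).F k) (K.imo x p E k)) :=
  ⟨V.M, (V.bd S x hx).mono fun k hk => hk (T.F k) (p.fp k) (E k)⟩

/-- the uniform bound for finite data: all events of probability at least `p0` of all finite extensions -/
def AlF (V : Bfn K B) (c p0 η : ℝ) (F : FSp) (x : K.X F) : Prop := ∀ (T : FSp) (q : FPj T F), T.n = F.n →
  ∀ E : T.Ω → Prop, p0 ≤ T.pb E → V.v (FSp.im q E) (K.im q E x) ≤ c + η

/-- the bound on all events of all extensions -/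
def AlB (V : Bfn K B) (c : ℝ) {S : Sp} (x : K.Ob S) : Prop := ∀ (T : Sp) (p : Pj T S) (E : ∀ k, (T.F k).Ω → Prop),
  0 < ul (T.pr E) → V.f (S := Sp.im p E) (K.imo x p E) ≤ c

theorem AlB.unif {V : Bfn K B} {c : ℝ} {x : K.Ob S} (hx : B S x) (h : AlB V c x) {p0 η : ℝ} (hp : 0 < p0)
    (hη : 0 < η) : ∀ᶠ k in UF, AlF V c p0 η (S.F k) (x k) := by
  classical
  by_contra hcon0
  have hcon := UF_not hcon0
  have h1 : ∀ k, ∃ (T : FSp) (q : FPj T (S.F k)) (_ : T.n = (S.F k).n) (E : T.Ω → Prop),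
      ¬ AlF V c p0 η (S.F k) (x k) → p0 ≤ T.pb E ∧ c + η < V.v (FSp.im q E) (K.im q E (x k)) := by
    intro k
    by_cases hk : AlF V c p0 η (S.F k) (x k)
    · exact ⟨S.F k, (Pj.id S).fp k, rfl, fun _ => True, fun h => absurd hk h⟩
    · have hk' := hk
      unfold AlF at hk'
      push Not at hk'
      obtain ⟨T, q, hn, E, h2, h3⟩ := hk'
      exact ⟨T, q, hn, E, fun _ => ⟨h2, h3⟩⟩
  choose T q hn E hbad using h1
  let T' : Sp := ⟨T, by
    have e : (fun k => (T k).n) = fun k => (S.F k).n := funext hn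
    rw [e]
    exact S.lim⟩
  let p : Pj T' S := ⟨fun k => (q k).π, fun k => (q k).law, fun k => (q k).hZ, hn⟩
  have h4 : p0 ≤ ul (T'.pr E) := const_le_ul (UB_pr (S := T') E) (hcon.mono fun k hk => (hbad k hk).1)
  have h5 := h T' p E (hp.trans_le h4)
  have h6 : c + η ≤ V.f (S := Sp.im p E) (K.imo x p E) :=
    const_le_ul (V.UB_im hx p E) (hcon.mono fun k hk => (hbad k hk).2.le)
  linarith

theorem AlB.of_unif {V : Bfn K B} {c : ℝ} {x : K.Ob S} (hx : B S x)
    (h : ∀ i : ℕ, ∀ η : ℝ, 0 < η → ∀ᶠ k in UF, AlF V c (1 / ((i : ℝ) + 1)) η (S.F k) (x k)) : AlB V c x := by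
  intro T p E hE
  obtain ⟨i, hi⟩ := exists_nat_one_div_lt hE
  refine le_of_forall_pos_le_add fun η hη => ?_
  refine ul_le_const (V.UB_im hx p E) ?_
  have h1 : ∀ᶠ k in UF, 1 / ((i : ℝ) + 1) < T.pr E k := (ul_tendsto (UB_pr E)).eventually (lt_mem_nhds hi)
  filter_upwards [h i η hη, h1] with k a b
  exact a (T.F k) (p.fp k) (p.hn k) (E k) b.le

/-- BOUNDS ON ALL EVENTS ARE CLOSED UNDER DIAGONALS -/
theorem alb_to {B' : ℕ → K.Pd} {B0 : K.Pd} (hB : DiagTo B' B0) (hs : ∀ j S x, B' j S x → B S x)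
    (hs0 : ∀ S x, B0 S x → B S x) (V : Bfn K B) {c : ℕ → ℝ} {c0 : ℝ} (hc : Tendsto c atTop (𝓝 c0)) :
    DiagTo (fun j S x => B' j S x ∧ AlB V (c j) x) (fun S x => B0 S x ∧ AlB V c0 x) := by
  intro S x hx
  obtain ⟨R, hR, h1⟩ := hB S x fun j => (hx j).1
  refine ⟨fun i j k => R i j k ∧ AlF V (c j) (1 / ((i : ℝ) + 1)) (1 / ((i : ℝ) + 1)) ((S j).F k) (x j k), fun i j =>
    (hR i j).and ((hx j).2.unif (hs j _ _ (hx j).1) (by positivity) (by positivity)), fun J hJ => ?_⟩
  have h2 := h1 J hJ.left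
  refine ⟨h2, AlB.of_unif (hs0 _ _ h2) fun i η hη => ?_⟩
  obtain ⟨i', hi'⟩ := exists_nat_one_div_lt (half_pos hη)
  have h3 : ∀ᶠ k in UF, c (J k) < c0 + η / 2 := (hc.comp hJ.tend).eventually (gt_mem_nhds (by linarith))
  filter_upwards [hJ.right.slow (max i i'), h3] with k a b
  intro T q hn E hE
  have e1 : 1 / (((max i i' : ℕ) : ℝ) + 1) ≤ 1 / ((i : ℝ) + 1) := by
    apply one_div_le_one_div_of_le (by positivity)
    have : (i : ℝ) ≤ ((max i i' : ℕ) : ℝ) := by exact_mod_cast le_max_left i i'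
    linarith
  have e2 : 1 / (((max i i' : ℕ) : ℝ) + 1) ≤ 1 / ((i' : ℝ) + 1) := by
    apply one_div_le_one_div_of_le (by positivity)
    have : (i' : ℝ) ≤ ((max i i' : ℕ) : ℝ) := by exact_mod_cast le_max_right i i'
    linarith
  have h4 := a T q hn E (e1.trans hE)
  exact (h4.trans (add_le_add b.le (e2.trans hi'.le))).trans (le_of_eq (by ring))

theorem alb_dg {C : K.Pd} (hC : DiagCl C) (hs : ∀ S x, C S x → B S x) (V : Bfn K B) (c : ℝ) :
    DiagCl (fun S x => C S x ∧ AlB V c x) :=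
  alb_to (B' := fun _ => C) hC (fun _ => hs) hs V (c := fun _ => c) tendsto_const_nhds

/-- the bounds are closed under restrictions: events of extensions of restrictions are events of extensions -/
theorem AlB.ev {V : Bfn K B} {c : ℝ} {x y : K.Ob S} (e : ∀ᶠ k in UF, x k = y k) (h : AlB V c x) : AlB V c y := by
  intro T p E hE
  refine le_trans (le_of_eq ?_) (h T p E hE)
  refine ul_congr ?_
  filter_upwards [e] with k hk
  show V.v ((Sp.im p E).F k) (K.im (p.fp k) (E k) (y k)) = V.v ((Sp.im p E).F k) (K.im (p.fp k) (E k) (x k))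
  rw [hk]

end

end Pool.Agent.Helper52.MW
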