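import Pool.Agent.Helper29.HX.Her
import Pool.Agent.Helper48.ROK.Numl
import Pool.Agent.Helper48.FLF.Rwf
import Pool.Agent.Helper60.LIM.Dfx
import Pool.Agent.Helper4.ZH.Zh
import Pool.Agent.Helper55.INV.Irw
import Pool.Agent.Helper77.TPX.Row
import Pool.Agent.Helper71.VIS.Ttn

/-! ROW `DEFJ` (deficit in the boxes of the least carriers of the truncations). Windows `c > 0`: the deficit of the zoom
over the least carrier (helper4), transported to the frame (helper48); window `0`: the deficit of the system (helper60). -/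

set_option autoImplicit false

namespace Pool.Agent.Helper52.MW

open Finset Filter Topology Matrix Pool.Agent.Helper69.RK Pool.Agent.Helper31.EC Pool.Agent.Helper31.EC.Sp
open Pool.Agent.Helper40.EL Pool.Agent.Helper89.LX Pool.Agent.Helper84.MT
open Pool.Agent.Helper49.MD Pool.Agent.Helper36.AM
open Pool.Agent.Helper7.RD (RW)
open Pool.Agent.Helper29.MX Pool.Agent.Helper29.HX
open Pool.Agent.Helper94.SEL (Ctx LL Spd MnC BK KE Top NUMX TRNX TOPF)
open Pool.Agent.Helper18.MCU (clF clF_bd dfx_of)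
open Pool.Agent.Helper48.ROK (wsm_wof wsm_all frm_zero ll_num ll_car ll_numS)
open Pool.Agent.Helper5.TRY (mc_trn fdz zV_h zV mul_hLa)

noncomputable section

variable {S : Sp} {M : ℕ} {A : MCl (M + 1)} {C : ℕ → MCl (M + 1)} {v m g r e0 : ℕ} {P : Pool.Agent.Helper94.SEL.Par}
  {W : ℝ} {a : ℕ → ℝ} {s : MSys S (M + 1) (lin g) (Fin r)} {R : Rsl S}

/-- THE DEFICIT of the members of `LL` at all levels -/
theorem ll_def (hc : Ctx M A C v) (hS : Spd M a W) (hW : W ≤ P.La) (h : LL (C m) v g r e0 P a S s R) {b : ℝ}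
    (hb : 0 < b) (hb1 : b ≤ 1) : H (s.Q.dg b) ≤ (M + 1 - P.ρ * (P.l / (2 * P.La))) * b := by
  have hN : NUMX M := Pool.Agent.Helper84.SEL.numx M
  have hLa : 1 ≤ P.La := P.La1
  have hl := P.l0
  have hLa0 : 0 < P.La := by linarith
  have hl1 : P.l < 1 := P.l_le_d.trans_lt P.d_lt_one
  obtain ⟨x, hx⟩ : ∃ x : ℝ, x = P.l / P.La := ⟨_, rfl⟩
  have hx0 : 0 < x := hx ▸ div_pos hl hLa0
  have hxl : x * P.La = P.l := by rw [hx, div_mul_cancel₀ _ hLa0.ne']
  have hxle : x ≤ P.l := by nlinarith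
  have h2 : P.l / (2 * P.La) = x / 2 := by rw [hx, div_div, mul_comm 2]
  have h3 : b * (x * (3 / 4)) < P.l := by nlinarith
  have h4 : 0 ≤ b * (x * (3 / 4)) := by positivity
  have hβd : b * (x / 2) ≤ P.d := by
    have h5 : P.l ≤ P.d := P.l_le_d
    nlinarith
  have htot : Pool.Agent.Helper94.SEL.tot s R (b * (x * (3 / 4))) < b := by
    have h5 : Pool.Agent.Helper94.SEL.tot s R (b * (x * (3 / 4))) = W * (b * (x * (3 / 4))) := by
      rw [← hN.last, h.num _ h4 h3 (M + 1) le_rfl, hS.tot]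
    rw [h5]
    have h6 : W * (b * (x * (3 / 4))) ≤ P.La * (b * (x * (3 / 4))) := mul_le_mul_of_nonneg_right hW h4
    have h7 : P.La * (b * (x * (3 / 4))) = b * (P.l * (3 / 4)) := by
      rw [← hxl]
      ring
    rw [h7] at h6
    nlinarith
  have h8 : AllE (fun S (t : MSys S (M + 1) (lin g) (Fin r)) (_ : Rsl S) =>
      H (t.Q.dg b) ≤ (M + 1) * b - P.ρ * (b * (x / 2)) + 0) S s R := fun T q B hB =>
    Pool.Agent.Helper60.LIM.defx (Pool.Agent.Helper71.VIS.trnx hN) hc h.ke.bk h.ke.top hb1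
      (by positivity) hβd (by nlinarith) h3 (by nlinarith) htot T q B hB
  have h9 := AllE_self h8
  rw [h2]
  have h10 : (M + 1 - P.ρ * (x / 2)) * b = (M + 1) * b - P.ρ * (b * (x / 2)) + 0 := by ring
  rw [h10]
  exact h9

/-- the deficit in the box of a least carrier, small windows -/
theorem ll_box (hc : Ctx M A C v) (hS : Spd M a W) (hW : W ≤ P.La) (h : LL (C m) v g r e0 P a S s R) {e : ℝ}
    (he : 0 < e) (he2 : 2 * e ≤ P.l) {c : ℝ} (h0 : 0 ≤ c) (hwc : ∀ i, wof M a i * c < 1) {X : Rsl S}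
    (hX : Mc s R (wof M a) (e * c) X) : ∃ X', Mc s R (wof M a) (e * c) X' ∧
      ∃ f : Frm s.Q (Lab.ofZ X') (fun j => wof M a j * (e * c)), ∀ δ : ℝ, 0 < δ → δ ≤ 1 →
        ul (fun k => Helper31.EC.h (clF f (e * δ) k) (fc (X' k)) / (S.F k).n) ≤
          (M + 1 - P.ρ * (P.l / (2 * P.La))) * (e * δ) := by
  have hw := Pool.Agent.Helper48.ROK.wof_ge hS
  have hl1 : P.l < 1 := P.l_le_d.trans_lt P.d_lt_one
  rcases h0.eq_or_lt with h00 | hc0
  · refine ⟨fun _ => ⊤, ?_, frm_zero s.Q _ (fun i => by rw [← h00, mul_zero, mul_zero]), ?_⟩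
    · rw [← h00, mul_zero]
      exact Pool.Agent.Helper48.ROK.mc_zero s R (wof M a)
    · intro δ hδ hδ1
      have h1 : 0 < e * δ := mul_pos he hδ
      have h2 : e * δ ≤ 1 := by nlinarith
      have h3 := ll_def hc hS hW h h1 h2
      rw [Pool.Agent.Helper8.CPY.H_dg_eq] at h3
      refine le_trans (le_of_eq ?_) h3
      congr 1
      funext k
      show Helper31.EC.h (fc (Setoid.ker (s.Q.cellv (e * δ) k))) (fc (⊤ : Setoid (S.F k).Ω)) / (S.F k).n = _
      rw [show (fc (⊤ : Setoid (S.F k).Ω) : FL (S.F k)) = ⊥ from rfl, h_bot]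
  · have hc1 : c < 1 := by
      have h2 := hwc 0
      have h3 := hw 0
      nlinarith
    have hec : 0 < e * c := mul_pos he hc0
    have hwu : ∀ i, wof M a i * (e * c) + e ≤ 1 := fun i => by
      have h2 : wof M a i * (e * c) = e * (wof M a i * c) := by ring
      rw [h2]
      nlinarith [hwc i]
    have hcl : e * c < P.l := by nlinarith
    have hdl : P.d < 1 := P.d_lt_one
    obtain ⟨z, V, hz, hzc, hzu, hVX, hXV, hK, hf, hL⟩ := Pool.Agent.Helper4.ZH.zoomh
      (Pool.Agent.Helper55.INV.invrw M) (Pool.Agent.Helper77.TPX.topf M) A C v hc m g r e0 P W a hW hS S s R h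
      (e * c) e hec he hwu (by nlinarith [P.d_pos]) X hX
    obtain ⟨f⟩ := hX.fr
    refine ⟨X, hX, f, fun δ hδ hδ1 => ?_⟩
    have h2 := ll_def hc hS hW hL hδ hδ1
    have hn : ((M + 1 : ℕ) : ℝ) - (∑ j, wof M a j) * (e * c) ≤ volKO s R (e * c) := by
      have h3 := h.num (e * c) hec.le hcl (M + 1) le_rfl
      rw [(Pool.Agent.Helper84.SEL.numx M).last, ← wsm_wof hS.zero (M + 1) le_rfl, wsm_all] at h3
      have h4 : ((M + 1 : ℕ) : ℝ) - volKO s R (e * c) = (∑ j, wof M a j) * (e * c) := h3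
      linarith
    have h5 := Pool.Agent.Helper48.FLF.flf_dfc hw hwu hn hX.kl f z hz hzc hzu hVX hXV hK hf hδ.le hδ1 h2
    refine le_trans h5 (le_of_eq ?_)
    ring

/-- **DEFICIT OF THE TRUNCATIONS**, one law -/
theorem dfx_law (hc : Ctx M A C v) (hS : Spd M a W) (hW : W ≤ P.La) (h : LL (C m) v g r e0 P a S s R) {e : ℝ}
    (he : 0 < e) (h1 : e ≤ 1) (he2 : 2 * e ≤ P.l) :
    Dfx (S := S.chg S.tr e he) (wof M a) (P.ρ * (P.l / (2 * P.La))) (s.trn e he h1) R := by
  have hw := Pool.Agent.Helper48.ROK.wof_ge hS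
  have hel : e ≤ P.l := by linarith
  have hP := h.ke.bk.cl.2.1
  have hN := AllE_self (ll_num hc.st hS h he h1 hel)
  have hC := AllE_self (ll_car hc.st hS h he h1 hel)
  refine dfx_of (S := S.chg S.tr e he) 0 (Pool.Agent.Helper48.ROK.pt_trn hP e he h1) hw (Pool.Agent.Helper48.ROK.Num.tot hN) fun c h0 hwc => ?_
  obtain ⟨X, hX⟩ := hC c h0 hwc
  have hX' : Mc s R (wof M a) (e * c) X := (mc_trn hw h0 fun i => (hwc i).le).mp hX
  obtain ⟨X', hX2, f, hf⟩ := ll_box hc hS hW h he he2 h0 hwc hX'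
  refine ⟨X', (mc_trn hw h0 fun i => (hwc i).le).mpr hX2, fdz (mul_hLa (wof M a) e c) h1 f, fun δ hδ hwδ => ?_⟩
  have hδ1 : δ ≤ 1 := by
    have h2 := hwδ 0
    have h3 : 0 ≤ wof M a 0 * c := mul_nonneg (zero_le_one.trans (hw 0)) h0
    linarith
  have h3 := hf δ hδ hδ1
  obtain ⟨ft, hft⟩ : ∃ ft, ft = fdz (mul_hLa (wof M a) e c) h1 f := ⟨_, rfl⟩
  have h4 := Pool.Agent.Helper8.CPY.ul_chg (S := S) he
    (f := fun k => Helper31.EC.h (fc (F := S.F k) (Setoid.ker ((zV ft.X).cellv (e * δ) k))) (fc (X' k)))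
    (g := fun k => Helper31.EC.h (fc (Setoid.ker (ft.X.cellv δ k)) : FL (Lab.ofZ (S := S.chg S.tr e he) X' k).T)
      (Lab.ofZ (S := S.chg S.tr e he) X' k).v) (fun k => zV_h ft.X δ k)
      (Pool.Agent.Helper3.MX.UB_cell (zV ft.X) (e * δ) _)
  rw [← hft]
  refine le_trans (le_of_eq h4) ?_
  rw [div_le_iff₀ he]
  have h5 : ul (fun k => Helper31.EC.h (fc (F := S.F k) (Setoid.ker ((zV ft.X).cellv (e * δ) k))) (fc (X' k)) /
      (S.F k).n) = ul (fun k => Helper31.EC.h (clF f (e * δ) k) (fc (X' k)) / (S.F k).n) := by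
    rw [hft]
    rfl
  rw [h5]
  have h6 : (((M + 1 : ℕ) : ℝ) - P.ρ * (P.l / (2 * P.La))) * δ * e =
      (M + 1 - P.ρ * (P.l / (2 * P.La))) * (e * δ) := by
    push_cast
    ring
  rw [h6]
  exact h3

/-- **ROW DEFJ** -/
theorem defj (M : ℕ) : DEFJ M := by
  intro A C v hc m g r e0 P W a hW hS _
  have hl := P.l0
  have hLa : 0 < P.La := by linarith [P.La1]
  refine ⟨P.l / 2, P.ρ * (P.l / (2 * P.La)), half_pos hl, mul_pos P.ρ0 (div_pos hl (by linarith)), ?_⟩
  intro S s R h e he h1 he1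
  exact Pool.Agent.Helper71.VIS.AllE_trn he h1 (P := fun S s R => LL (C m) v g r e0 P a S s R)
    (fun S s R h => dfx_law hc hS hW h he h1 (by linarith)) (fun T q B hB => ll_im hc h q B hB)

end

end Pool.Agent.Helper52.MW
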