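import Pool.Agent.Helper94.SEL.St
import Pool.Agent.Helper52.MW.Def
import Pool.Agent.Helper22.OC.Abs

/-! ROW `MINW` of Helper94/SEL/St: the minimal total speed is attained. -/

set_option autoImplicit false

namespace Pool.Agent.Helper52.MW

open Finset Filter Topology Matrix Pool.Agent.Helper69.RK Pool.Agent.Helper31.EC Pool.Agent.Helper31.EC.Sp
open Pool.Agent.Helper40.EL Pool.Agent.Helper89.LX Pool.Agent.Helper84.MT
open Pool.Agent.Helper49.MD Pool.Agent.Helper36.AM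
open Pool.Agent.Helper47.FN (KR lftR obR lftR_ob)
open Pool.Agent.Helper29.MX
open Pool.Agent.Helper94.SEL

noncomputable section

variable {S : Sp} {M : ℕ} {E : ℕ → ℕ} {r : ℕ}

/-! ### elementary properties of the numbers -/

theorem num_le_num (hN : NUMX M) {s : MSys S (M + 1) E (Fin r)} {R : Rsl S} (hP : Pt s R) {c : ℝ} (h0 : 0 ≤ c)
    (h1 : c ≤ 1) {i j : ℕ} (hij : i ≤ j) (hj : j ≤ M + 1) : num s R (hij.trans hj) c ≤ num s R hj c := by
  induction j, hij using Nat.le_induction with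
  | base => exact le_rfl
  | succ j hij ih =>
    have h2 := hN.step S E r s R c hP h0 h1 j hj
    have h3 := ih (Nat.le_of_succ_le hj)
    linarith

theorem num_nonneg (hN : NUMX M) {s : MSys S (M + 1) E (Fin r)} {R : Rsl S} (hP : Pt s R) {c : ℝ} (h0 : 0 ≤ c)
    (h1 : c ≤ 1) {j : ℕ} (hj : j ≤ M + 1) : 0 ≤ num s R hj c := by
  have h2 := num_le_num hN hP h0 h1 (Nat.zero_le j) hj
  rwa [hN.zero] at h2

theorem num_le_tot (hN : NUMX M) {s : MSys S (M + 1) E (Fin r)} {R : Rsl S} (hP : Pt s R) {c : ℝ} (h0 : 0 ≤ c)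
    (h1 : c ≤ 1) {j : ℕ} (hj : j ≤ M + 1) : num s R hj c ≤ tot s R c := by
  rw [← hN.last]
  exact num_le_num hN hP h0 h1 hj le_rfl

theorem lmd_le_tot (hN : NUMX M) {s : MSys S (M + 1) E (Fin r)} {R : Rsl S} (hP : Pt s R) {c : ℝ} (h0 : 0 ≤ c)
    (h1 : c ≤ 1) (j : Fin (M + 1)) : lmd s R c j ≤ tot s R c := by
  unfold lmd
  have h2 := num_le_tot hN hP h0 h1 (Nat.succ_le_of_lt j.2)
  have h3 := num_nonneg hN hP h0 h1 j.2.le
  linarith

theorem tot_ge (hN : NUMX M) {s : MSys S (M + 1) E (Fin r)} {R : Rsl S} (hP : Pt s R) {c : ℝ} (h0 : 0 ≤ c)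
    (h1 : c ≤ 1) : c ≤ tot s R c := by
  have h2 := hN.step S E r s R c hP h0 h1 M le_rfl
  have h3 := num_nonneg hN hP h0 h1 (Nat.le_of_succ_le (le_refl (M + 1)))
  rw [hN.last] at h2
  linarith

theorem tot_mono (hN : NUMX M) (s : MSys S (M + 1) E (Fin r)) (R : Rsl S) {c c' : ℝ} (h0 : 0 ≤ c) (h1 : c ≤ c')
    (h2 : c' ≤ 1) : tot s R c ≤ tot s R c' := by
  rw [← hN.last, ← hN.last]
  exact hN.mono S E r s R c c' h0 h1 h2 (M + 1) le_rfl

theorem Par.d_pos (P : Par) : 0 < P.d := mul_pos (by linarith [P.La1]) P.l0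

theorem Par.l_le (P : Par) : P.l ≤ P.d := le_mul_of_one_le_left P.l0.le P.La1

theorem Par.d_lt (P : Par) : P.d < 1 :=
  (le_mul_of_one_le_left (Par.d_pos P).le P.La1).trans_lt P.lLa

theorem Par.l_lt (P : Par) : P.l < 1 := (Par.l_le P).trans_lt (Par.d_lt P)

section member

variable {C : MCl (M + 1)} {v g e0 : ℕ} {P : Par} {s : MSys S (M + 1) (lin g) (Fin r)} {R : Rsl S}

theorem tot_zero {b0 : ℝ} (h : BK C v g r e0 b0 S s R) : tot s R 0 = 0 := by
  have h1 := AllE_self h.stb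
  have h2 := volKO_le_M s R 0
  have h3 : (((M + 1 : ℕ) : ℝ)) - 0 ≤ volKO s R 0 := h1
  unfold tot
  linarith

theorem KE.tot_le (h : KE C v g r e0 P 0 S s R) {c : ℝ} (h0 : 0 ≤ c) (h1 : c < P.l) : tot s R c ≤ P.La * c := by
  have h2 := h.lip 0 c le_rfl h0 h1
  rw [tot_zero h.bk] at h2
  linarith

theorem KE.mono {ε : ℝ} (hε : 0 ≤ ε) (h : KE C v g r e0 P 0 S s R) : KE C v g r e0 P ε S s R where
  bk := h.bk
  lip := fun c c' h0 h1 h2 => (h.lip c c' h0 h1 h2).trans (by linarith)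
  top := fun T q A hA a b ha hab hb => (h.top T q A hA a b ha hab hb).trans (by linarith)

/-- a point of differentiability -/
theorem KE.exists_diff (hN : NUMX M) (h : KE C v g r e0 P 0 S s R) {b : ℝ} (hb : 0 < b) (hbl : b ≤ P.l) :
    ∃ c w : ℝ, 0 < c ∧ c < b ∧ HasDerivAt (fun c => tot s R c) w c ∧ w ≤ P.La := by
  have hl := Par.l_lt P
  have hL : ∀ x, 0 ≤ x → ∀ y, x ≤ y → y < P.l → |tot s R y - tot s R x| ≤ P.La * (y - x) := by
    intro x hx y hxy hy
    rw [abs_of_nonneg (sub_nonneg.mpr (tot_mono hN s R hx hxy (hy.le.trans hl.le)))]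
    have := h.lip x y hx hxy hy
    linarith
  obtain ⟨c, hc0, hc1, hd⟩ := Pool.Agent.Helper22.OC.exists_diff (ι := Unit) (fun _ => tot s R) (W := P.La)
    (b0 := b / 3) (b1 := b / 2) (by linarith) (fun _ x hx y hy hxy => hL x (by linarith [hx.1]) y hxy
      (by linarith [hy.2]))
  refine ⟨c, deriv (tot s R) c, by linarith, by linarith, (hd ()).hasDerivAt, ?_⟩
  have h1 : ‖deriv (tot s R) c‖ ≤ P.La := by
    refine (hd ()).hasDerivAt.le_of_lip' (by linarith [P.La1]) ?_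
    have h2 : Set.Ioo (b / 3) (b / 2) ∈ 𝓝 c := Ioo_mem_nhds hc0 hc1
    filter_upwards [h2] with x hx
    rw [Real.norm_eq_abs, Real.norm_eq_abs]
    rcases le_total x c with h3 | h3
    · rw [abs_sub_comm, abs_sub_comm x c, abs_of_nonneg (sub_nonneg.mpr h3)]
      exact hL x (by linarith [hx.1]) c h3 (by linarith)
    · rw [abs_of_nonneg (sub_nonneg.mpr h3)]
      exact hL c (by linarith) x h3 (by linarith [hx.2])
  exact (le_abs_self _).trans h1

end member

/-- **ROW MINW** -/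
theorem minw_row {gb : ℕ → ℕ → ℝ → ℕ} (hN : NUMX M) (hL : LIMX M) (hC : CORN M gb) (hT : TOPZ M) (hG : TGR M) :
    MINW M gb := by
  intro A C v hc m r e0 P hk
  obtain ⟨S, s, R, hk⟩ := hk
  have hl := Par.l_lt P
  have hl0 := P.l0
  have hLa := P.La1
  -- a linear member
  have h1 : ∃ w : ℝ, w ≤ P.La ∧ ∃ (S : Sp) (s : MSys S (M + 1) (lin (gd gb r e0 P)) (Fin r)) (R : Rsl S),
      KE (C m) v (gd gb r e0 P) r e0 P 0 S s R ∧ ∀ c : ℝ, 0 ≤ c → c < P.l → tot s R c = w * c := by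
    obtain ⟨c, w, hc0, hcl, hd, hw⟩ := KE.exists_diff hN hk hl0 le_rfl
    have hP : Pt s R := hk.bk.cl.2.1
    have htot : tot s R c ≤ P.La * c := KE.tot_le hk hc0.le hcl
    have hd1 := Par.d_lt P
    have htl : tot s R c < P.d := htot.trans_lt (mul_lt_mul_of_pos_left hcl (by linarith))
    have hlm : ∀ j, lmd s R c j < P.d := fun j => (lmd_le_tot hN hP hc0.le (hcl.trans hl).le j).trans_lt htl
    have hz := hT A C v hc m (gd gb r e0 P) r e0 P.l S s R hk.bk P.ρ P.d P.d P.La (Par.d_pos P) hd1.le (by linarith)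
      P.lLa hk.top c hc0 hcl (hcl.trans hl) (hlm _) w hw hd
    have hg := hG A C v hc m (gd gb r e0 P) r e0 P.l S s R hk.bk c (1 - P.d) hc0.le hcl (hcl.trans hl) (by linarith)
      (by linarith)
    obtain ⟨S', t, R', h2, h3⟩ := hC A C v hc m (gd gb r e0 P) r e0 P.l (P.La + 1) P S s R hk.bk c w (fun _ => 0) ∅ hc0
      hcl (hcl.trans hl) ⟨1 - P.d, by linarith, hg⟩ (by nlinarith) hz hd hw (fun j hj => hj.elim)
    exact ⟨w, hw, S', t, R', h2, fun b hb0 hb1 => (h3 b hb0 hb1).1⟩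
  obtain ⟨w, hw, S1, s1, R1, h1⟩ := h1
  -- the minimum
  have hge : ∀ (W : ℝ) (S : Sp) (s : MSys S (M + 1) (lin (gd gb r e0 P)) (Fin r)) (R : Rsl S),
      KE (C m) v (gd gb r e0 P) r e0 P 0 S s R → (∀ c : ℝ, 0 ≤ c → c < P.l → tot s R c = W * c) → 1 ≤ W := by
    intro W S s R h2 h3
    have h4 := tot_ge hN h2.bk.cl.2.1 (c := P.l / 2) (by linarith) (by linarith)
    rw [h3 (P.l / 2) (by linarith) (by linarith)] at h4
    nlinarith
  obtain ⟨W, h2, ⟨S2, x2, s2, R2, -, -, h3⟩, h4⟩ := exists_min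
    (P := fun W => lftR fun S (s : MSys S (M + 1) (lin (gd gb r e0 P)) (Fin r)) R =>
      KE (C m) v (gd gb r e0 P) r e0 P 0 S s R ∧ ∀ c : ℝ, 0 ≤ c → c < P.l → tot s R c = W * c) (W1 := w) (U := P.La)
    (L := 1) ⟨S1, obR s1 R1, lftR_ob h1⟩ hw (by
      rintro W S' x' ⟨s', R', -, -, h5, h6⟩
      exact hge W S' s' R' h5 h6) (by
      intro W W0 _ hWW S x hx
      obtain ⟨E, hE, h5⟩ := hL A C v hc m (gd gb r e0 P) r e0 P (fun j => |W j - W0|) (fun j => abs_nonneg _)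
        (by
          have h6 : Tendsto (fun j => W j - W0) atTop (𝓝 0) := by
            have h7 := hWW.sub_const W0
            rwa [sub_self] at h7
          have h8 := h6.abs
          rwa [abs_zero] at h8)
        (fun c => W0 * c) (fun _ _ => 0) ∅ S x (fun j => by
          obtain ⟨s', R', h6, h7, h8, h9⟩ := hx j
          refine ⟨s', R', h6, h7, KE.mono (abs_nonneg _) h8, fun c hc0 hc1 => ⟨?_, fun i hi => hi.elim⟩⟩
          rw [h9 c hc0 hc1]
          have e1 : W j * c - W0 * c = (W j - W0) * c := by ring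
          rw [e1, abs_mul, abs_of_nonneg hc0]
          have := abs_nonneg (W j - W0)
          nlinarith)
      refine ⟨E, hE, fun J h => ?_⟩
      obtain ⟨s', R', h6, h7, h8, h9⟩ := h5 J h
      exact ⟨s', R', h6, h7, h8, fun c hc0 hc1 => (h9 c hc0 hc1).1⟩)
  refine ⟨W, hge W S2 s2 R2 h3.1 h3.2, h2, fun S' s' R' w' h5 h6 => ?_, S2, s2, R2, h3.1, h3.2⟩
  exact h4 w' S' (obR s' R') (lftR_ob ⟨h5, h6⟩)

end

end Pool.Agent.Helper52.MW
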