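import Pool.Agent.Helper52.MW.Def
import Pool.Agent.Helper52.GF.Mxc
import Pool.Agent.Helper63.SCN.Dnum
import Pool.Agent.Helper94.SEL.St

/-! CONSTANT NUMBERS: in every closed class of pairs there is a closed subclass with constant numbers for the
resolution, for the present cells of all rational truncations, and with constant entropies of TOP. -/

set_option autoImplicit false

namespace Pool.Agent.Helper52.MW

open Finset Filter Topology Matrix Pool.Agent.Helper69.RK Pool.Agent.Helper31.EC Pool.Agent.Helper31.EC.Sp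
open Pool.Agent.Helper40.EL Pool.Agent.Helper89.LX Pool.Agent.Helper59.EV Pool.Agent.Helper49.MD
open Pool.Agent.Helper84.MT Pool.Agent.Helper3.LF Pool.Agent.Helper36.AM
open Pool.Agent.Helper47.FN (KR lftR obR)
open Pool.Agent.Helper18.PRM (vcrd scrd)
open Pool.Agent.Helper89.RAK (rnd)
open Pool.Agent.Helper52.GF
open Pool.Agent.Helper94.SEL (Cl2 num)
open Pool.Agent.Helper77.TPX (oth)
open Pool.Agent.Helper29

noncomputable section

section Row

open Pool.Agent.Helper29.MX (Rsl Pt rd vis)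

/-- in every closed class of pairs there is a closed subclass with constant numbers (for the resolution, and for
the present cells of all rational truncations) and constant entropies of TOP -/
def RIGX (M : ℕ) : Prop := ∀ (g r : ℕ) (TT : ∀ S : Sp, MSys S (M + 1) (lin g) (Fin r) → Rsl S → Prop), Cl2 TT →
  (∀ S s R, TT S s R → Pt s R) → (∃ S s R, TT S s R) →
    ∃ (TT' : ∀ S : Sp, MSys S (M + 1) (lin g) (Fin r) → Rsl S → Prop), Cl2 TT' ∧ (∃ S s R, TT' S s R) ∧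
      ∀ S s R, TT' S s R → TT S s R ∧
      ∀ (T : Sp) (q : Pj T S) (A : ∀ k, (T.F k).Ω → Prop) (hA : 0 < ul (T.pr A)),
        (∀ (c : ℝ) (j : ℕ) (hj : j ≤ M + 1), 0 ≤ c → c ≤ 1 → num (s.im q A hA) R hj c = num s R hj c ∧
          ∀ (e : ℚ) (he : (0 : ℝ) < e) (h1 : (e : ℝ) ≤ 1),
            num (rd ((s.im q A hA).trn e he h1)) (vis (rd ((s.im q A hA).trn e he h1)).Q) hj c =
              num (rd (s.trn e he h1)) (vis (rd (s.trn e he h1)).Q) hj c) ∧
        ∀ a b : ℝ, 0 ≤ a → a ≤ b → b ≤ 1 →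
          Pool.Agent.Helper31.EC.h (((s.Q.im q A).co (Fin.last M)).dg b) (((s.Q.im q A).co (Fin.last M)).dg a ⊔
            (oth (s.Q.im q A) (Fin.last M)).dg 1) =
          Pool.Agent.Helper31.EC.h ((s.Q.co (Fin.last M)).dg b) ((s.Q.co (Fin.last M)).dg a ⊔
            (oth s.Q (Fin.last M)).dg 1)

end Row

variable {S T : Sp} {M N : ℕ} {E : ℕ → ℕ} {ι : Type} {K : FK}

/-! ### the stage, functionals of a smaller class -/

theorem stage_jB (m : Km K (KM M ι)) [Encodable ι] {C B : K.Pd} (hC : Cls C) (hCB : ∀ S x, C S x → B S x)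
    (hB : ∀ S x, B S x → isK E m S x) (V W : ℕ → Pu K) (U : Ku K) (u : ℕ → ℝ)
    (hu : ∀ j, 0 < u j) (hU : ∀ j, UnCl U (u j) (hu j) B) :
    ∃ C' : K.Pd, Cls C' ∧ (∀ S x, C' S x → C S x) ∧ (∃ c : KD M, RbJ E m V W C' c) ∧
      ∀ j, ∃ c : KD M, RbJU E m V W U (u j) (hu j) C' c := by
  classical
  let tr : Option ℕ → Fnl B → Fnl B := fun j Φ => match j with
    | none => Φ
    | some j => fnlU U (u j) (hu j) (hU j) Φ
  obtain ⟨v, h2⟩ := stage_mono hC hCB (ι := Option ℕ × Bool × Sb M × ℕ × ℕ)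
    (fun i c => tr i.1 ((match i.2.1 with
      | true => kxmF E ((cooM ι i.2.2.1.2).cm m) i.2.2.2.1 (V i.2.2.2.2) (W i.2.2.2.2) c
      | false => kxsF E ((cooM ι i.2.2.1.2).cm m) i.2.2.2.1 (V i.2.2.2.2) (W i.2.2.2.2) c).mono
        fun S x hx => isK_cos m i.2.2.1.2 (hB S x hx)))
    (by
      rintro ⟨j, b, q, D, n⟩ S x hx c c' hc
      rcases j with _ | j
      · cases b
        · exact kxs_mono ((cooM ι q.2).cm m) D (V n) (W n) hc (isK_cos m q.2 (hB S x hx))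
        · exact kxm_mono ((cooM ι q.2).cm m) D (V n) (W n) hc (isK_cos m q.2 (hB S x hx))
      · cases b
        · exact kxs_mono ((cooM ι q.2).cm m) D (V n) (W n) hc (isK_cos m q.2 (hB _ _ (hU j S x hx)))
        · exact kxm_mono ((cooM ι q.2).cm m) D (V n) (W n) hc (isK_cos m q.2 (hB _ _ (hU j S x hx))))
  refine ⟨_, h2, fun S x hx => hx.1, ⟨⟨fun q D n c => q.1 - v (none, true, q, D, n) c,
    fun q D n c => v (none, false, q, D, n) c⟩, fun S x hx q D n c => ⟨?_, hx.2 (none, false, q, D, n) c⟩⟩, fun j =>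
    ⟨⟨fun q D n c => q.1 - v (some j, true, q, D, n) c, fun q D n c => v (some j, false, q, D, n) c⟩,
      fun S x hx q D n c => ⟨?_, hx.2 (some j, false, q, D, n) c⟩⟩⟩
  · have h3 := hx.2 (none, true, q, D, n) c
    show (q.1 : ℝ) - kxm E ((cooM ι q.2).cm m) D (V n) (W n) c x = q.1 - v (none, true, q, D, n) c
    rw [← h3]
    rfl
  · have h3 := hx.2 (some j, true, q, D, n) c
    show (q.1 : ℝ) - kxm E ((cooM ι q.2).cm m) D (V n) (W n) c (U.o (u j) (hu j) x) = q.1 - v (some j, true, q, D, n) c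
    rw [← h3]
    rfl

/-! ### the rounded point -/

/-- the rounded point of finite data -/
def rdM (M : ℕ) (ι : Type) : Km (KM M ι) (KM M ι) where
  f := fun F x => (⟨fun ω i => (⌊(x : FMs F.Ω M ι).Q ω i / dlF F 1⌋ : ℝ) * dlF F 1, (x : FMs F.Ω M ι).lf⟩ : FMs F.Ω M ι)
  im := fun _ _ _ _ _ => rfl

theorem giv_rd {s : MSys S M E ι} {x : (KM M ι).Ob S} (h : Giv s x) : Giv (MX.rd s) ((rdM M ι).o x) := by
  constructor
  · filter_upwards [h.1] with k hk
    show (fun ω i => (⌊s.Q.v k ω i / S.dl 1 k⌋ : ℝ) * S.dl 1 k) =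
      fun ω i => (⌊(x k : FMs (S.F k).Ω M ι).Q ω i / dlF (S.F k) 1⌋ : ℝ) * dlF (S.F k) 1
    rw [hk]
    rfl
  · intro i
    filter_upwards [h.2 i] with k hk
    exact hk

/-- pairs, the point rounded -/
def prV (M : ℕ) (ι : Type) : Km (KR M ι) (KM M ι) := (rdM M ι).cm (prR M ι)

/-- the cells of level one of the rounded point -/
def puV (M : ℕ) (ι : Type) : Pu (KR M ι) where
  X := fun F x => Setoid.ker fun ω => cell (dlF F 1)
    (((rdM M ι).f F ((prR M ι).f F x) : FMs F.Ω M ι).Q ω)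
  im := fun _ _ _ _ _ => rfl

theorem puV_obR (s : MSys S M E ι) (R : MX.Rsl S) :
    ∀ᶠ k in UF, (puV M ι).pt (obR s R) k = fc (MX.vis (MX.rd s).Q k) := Eventually.of_forall fun _ => rfl

theorem isK_prV [Encodable ι] {x : (KR M ι).Ob S} (h : isK E (prR M ι) S x) : isK E (prV M ι) S x := by
  obtain ⟨s, hs⟩ := h
  exact ⟨MX.rd s, giv_rd hs⟩

/-! ### volumes of the members -/

theorem kvm_volP [Encodable ι] [Finite ι] {m : Km K (KM M ι)} {V : Pu K} {x : K.Ob S} {s : MSys S M E ι}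
    (hs : Giv s (m.o x)) {R : MX.Rsl S} (hR : ∀ᶠ k in UF, V.pt x k = fc (R k)) {j : ℕ} (hj : j ≤ M) (c : ℝ) :
    MX.volP s R c hj = ⨅ D : ℕ, kvm E ((cooM ι (Fin.castLE hj)).cm m) D V V c x := by
  rw [volP_eq]
  unfold MX.volKO
  exact congrArg _ (funext fun D => mx_volK_kvm (m := (cooM ι (Fin.castLE hj)).cm m) (giv_scrd hs _) hR hR D c)

theorem rbj_volP [Encodable ι] [Finite ι] {m : Km K (KM M ι)} {V : Pu K} {C : KD M} {B : K.Pd}
    (h : RbJ E m (fun _ => V) (fun _ => V) B C) {x : K.Ob S} (hx : B S x) {s : MSys S M E ι} (hs : Giv s (m.o x))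
    {R : MX.Rsl S} (hR : ∀ᶠ k in UF, V.pt x k = fc (R k)) {j : ℕ} (hj : j ≤ M) (c : ℝ) :
    MX.volP s R c hj = ⨅ D : ℕ, C.v ⟨j, Fin.castLE hj⟩ D 0 c := by
  rw [kvm_volP hs hR hj c]
  exact congrArg _ (funext fun D => (h S x hx ⟨j, Fin.castLE hj⟩ D 0 c).1)

theorem rbju_volP [Encodable ι] [Finite ι] {m : Km K (KM M ι)} {V : Pu K} {U : Ku K} {e : ℝ} {he : 0 < e} {C : KD M}
    {B : K.Pd} (h : RbJU E m (fun _ => V) (fun _ => V) U e he B C) {x : K.Ob S} (hx : B S x)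
    {s : MSys (S.chg S.tr e he) M E ι} (hs : Giv s (m.o (U.o e he x))) {R : MX.Rsl (S.chg S.tr e he)}
    (hR : ∀ᶠ k in UF, V.pt (U.o e he x) k = fc (R k)) {j : ℕ} (hj : j ≤ M) (c : ℝ) :
    MX.volP s R c hj = ⨅ D : ℕ, C.v ⟨j, Fin.castLE hj⟩ D 0 c := by
  rw [kvm_volP hs hR hj c]
  exact congrArg _ (funext fun D => (h S x hx ⟨j, Fin.castLE hj⟩ D 0 c).1)

/-! ### the row -/

theorem cls_of {M g r : ℕ} {TT : ∀ S : Sp, MSys S (M + 1) (lin g) (Fin r) → MX.Rsl S → Prop} (hT : Cl2 TT)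
    (hne : ∃ S s R, TT S s R) : Cls (lftR TT) where
  dg := hT.2
  im := lftR_im hT.1
  ev := lftR_inv TT
  ne := by
    obtain ⟨S, s, R, h⟩ := hne
    exact ⟨S, obR s R, Pool.Agent.Helper47.FN.lftR_ob h⟩

theorem cl2_cutR {M g r : ℕ} {TT : ∀ S : Sp, MSys S (M + 1) (lin g) (Fin r) → MX.Rsl S → Prop} (hT : Cl2 TT)
    {C : (KR (M + 1) (Fin r)).Pd} (hC : Cls C) (h : ∀ S x, C S x → lftR TT S x) : Cl2 (cutR TT C) := by
  refine ⟨fun S s R hs T q A hA => ⟨hT.1 S s R hs.1 T q A hA, hC.im S _ hs.2 T q A hA⟩, ?_⟩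
  rw [lftR_cutR hC.ev h]
  exact hC.dg

/-- **ROW RIGX** -/
theorem rigx (M : ℕ) : RIGX M := by
  classical
  intro g r TT hT _ hne
  have h0 := cls_of hT hne
  have hK : ∀ S x, lftR TT S x → isK (lin g) (prR (M + 1) (Fin r)) S x := fun S x hx => lftR_isK hx
  have : Nonempty {e : ℚ // (0 : ℝ) < e ∧ (e : ℝ) ≤ 1} := ⟨⟨1, by norm_num, by norm_num⟩⟩
  obtain ⟨u, hu⟩ := exists_surjective_nat {e : ℚ // (0 : ℝ) < e ∧ (e : ℝ) ≤ 1}
  -- the resolution itself: entropies, volumes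
  obtain ⟨C1, hC1, hs1, ⟨c1, hr1⟩, _⟩ := stage_k (prR (M + 1) (Fin r)) h0 hK
    (fun _ => ptk (lin g) (prR (M + 1) (Fin r)) (Sum.inr none) (0, 0)) (fun _ => puR (M + 1) (Fin r))
    (fun _ => puR (M + 1) (Fin r)) (kuR (M + 1) (Fin r)) (fun _ => 1) (fun _ => one_pos)
    (fun _ => isK_trn one_pos le_rfl)
  obtain ⟨C2, hC2, hs2, ⟨c2, hr2⟩, _⟩ := stage_jB (E := lin g) (prR (M + 1) (Fin r)) hC1
    (B := isK (lin g) (prR (M + 1) (Fin r))) (fun S x hx => hK S x (hs1 S x hx)) (fun _ _ h => h)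
    (fun _ => puR (M + 1) (Fin r)) (fun _ => puR (M + 1) (Fin r)) (kuR (M + 1) (Fin r)) (fun _ => 1) (fun _ => one_pos)
    (fun _ => isK_trn one_pos le_rfl)
  -- the present cells of the truncations
  obtain ⟨C3, hC3, hs3, _, h3⟩ := stage_jB (E := lin g) (prV (M + 1) (Fin r)) hC2
    (B := isK (lin g) (prR (M + 1) (Fin r))) (fun S x hx => hK S x (hs1 S x (hs2 S x hx))) (fun _ _ h => isK_prV h)
    (fun _ => puV (M + 1) (Fin r)) (fun _ => puV (M + 1) (Fin r)) (kuR (M + 1) (Fin r)) (fun j => ((u j).1 : ℝ))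
    (fun j => (u j).2.1) (fun j => isK_trn (u j).2.1 (u j).2.2)
  have h3' : ∀ e : {e : ℚ // (0 : ℝ) < e ∧ (e : ℝ) ≤ 1}, ∃ c : KD (M + 1), RbJU (lin g) (prV (M + 1) (Fin r))
      (fun _ => puV (M + 1) (Fin r)) (fun _ => puV (M + 1) (Fin r)) (kuR (M + 1) (Fin r)) (e.1 : ℝ) e.2.1 C3 c := by
    intro e
    obtain ⟨j, rfl⟩ := hu e
    exact h3 j
  have h30 : ∀ S x, C3 S x → lftR TT S x := fun S x hx => hs1 S x (hs2 S x (hs3 S x hx))
  refine ⟨cutR TT C3, cl2_cutR hT hC3 h30, ?_, fun S s R hm => ⟨hm.1, fun T q A hA => ⟨fun c j hj _ _ => ⟨?_,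
    fun e he h1 => ?_⟩, fun a b _ hab hb => ?_⟩⟩⟩
  · obtain ⟨S, x, hx⟩ := hC3.ne
    obtain ⟨s, R, h1, h2, h4⟩ := h30 S x hx
    exact ⟨S, s, R, h4, hC3.ev S x (obR s R) ((obR_ev h1 h2).mono fun _ hk => hk.symm) hx⟩
  · have hx := hs3 _ _ hm.2
    have hxi := hs3 _ _ (hC3.im _ _ hm.2 T q A hA)
    have e1 := rbj_volP hr2 hx (giv_obR s R) (R := R) (Eventually.of_forall fun _ => rfl) hj c
    have e2 := rbj_volP hr2 hxi (giv_obR (s.im q A hA) R) (R := R) (Eventually.of_forall fun _ => rfl) hj c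
    exact congrArg (fun v : ℝ => (j : ℝ) - v) (e2.trans e1.symm)
  · obtain ⟨c3, hr3⟩ := h3' ⟨e, he, h1⟩
    have hxi := hC3.im _ _ hm.2 T q A hA
    have e1 := rbju_volP hr3 hm.2 (s := MX.rd (s.trn e he h1)) (giv_rd (giv_obR (s.trn e he h1) R))
      (R := MX.vis (MX.rd (s.trn e he h1)).Q) (puV_obR (s.trn e he h1) R) hj c
    have e2 := rbju_volP hr3 hxi (s := MX.rd ((s.im q A hA).trn e he h1)) (giv_rd (giv_obR ((s.im q A hA).trn e he h1) R))
      (R := MX.vis (MX.rd ((s.im q A hA).trn e he h1)).Q) (puV_obR ((s.im q A hA).trn e he h1) R) hj c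
    exact congrArg (fun v : ℝ => (j : ℝ) - v) (e2.trans e1.symm)
  · have hx := hs2 _ _ (hs3 _ _ hm.2)
    have hxi := hs2 _ _ (hs3 _ _ (hC3.im _ _ hm.2 T q A hA))
    have e1 := Pool.Agent.Helper63.SCN.kv_step (hr1 _ _ hx) (giv_obR s R) (Fin.last M) hab hb
    have e2 := Pool.Agent.Helper63.SCN.kv_step (hr1 _ _ hxi) (giv_obR (s.im q A hA) R) (Fin.last M) hab hb
    exact e2.trans e1.symm

end

end Pool.Agent.Helper52.MW
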